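import Pool.Agent.helper50.MA.SpecF

/-!
# Project ma (MP_0012ff_an), module F5: the mass of `M v v` near the curve
-/

set_option autoImplicit false

open MeasureTheory Set Filter Topology
open scoped ContDiff Real

namespace MAP

theorem F5_zero_mem {X : Type} [TopologicalSpace X] [MeasurableSpace X] (T : MATh X) :
    (fun _ => (0 : ℝ)) ∈ T.C0 := T.ps_c0 (T.const_ps 0)

theorem F5_int {X : Type} [TopologicalSpace X] [CompactSpace X] [MeasurableSpace X] [BorelSpace X]
    (ν : Measure X) [IsFiniteMeasure ν] {f : X → ℝ} (hf : Continuous f) : Integrable f ν :=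
  hf.integrable_of_hasCompactSupport (HasCompactSupport.of_compactSpace f)

theorem F5 : F5_stmt := by
  intro X _ _ _ _ _ _ T μ cd v hv K Λ hK hΛ hvK hv0
  have h0 : (fun _ => (0 : ℝ)) ∈ T.C0 := F5_zero_mem T
  have hs : soft cd.S Λ ∈ T.C0 := cd.soft_mem Λ hΛ
  have hvc : Continuous v := T.cont v hv
  have hsc : Continuous (soft cd.S Λ) := T.cont _ hs
  have f1 : IsFiniteMeasure (T.M v v) := T.fin v hv v hv
  have f2 : IsFiniteMeasure (T.M (soft cd.S Λ) v) := T.fin _ hs v hv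
  have f3 : IsFiniteMeasure (T.M (soft cd.S Λ) (fun _ => 0)) := T.fin _ hs _ h0
  have f4 : IsFiniteMeasure (T.M (fun _ => 0) v) := T.fin _ h0 v hv
  have f5 : IsFiniteMeasure (T.M (fun _ => 0) (fun _ => 0)) := T.fin _ h0 _ h0
  have e1 := T.stokes v hv (fun _ => 0) h0 v hv (soft cd.S Λ) hs
  have e2 := T.stokes v hv (fun _ => 0) h0 (fun _ => 0) h0 (soft cd.S Λ) hs
  have hsym : T.M v (fun _ => 0) = T.M (fun _ => 0) v := T.symm v hv _ h0
  rw [hsym] at e2
  simp only [sub_zero] at e1 e2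
  -- `∫ (-v) dM s g ≤ K V`
  have hbd : ∀ g ∈ T.C0, -(∫ x, v x ∂T.M (soft cd.S Λ) g) ≤ K * T.V := by
    intro g hg
    have f6 : IsFiniteMeasure (T.M (soft cd.S Λ) g) := T.fin _ hs g hg
    have hm : (T.M (soft cd.S Λ) g).real univ = T.V := T.mass _ hs g hg
    rw [← integral_neg]
    calc ∫ x, -(v x) ∂T.M (soft cd.S Λ) g ≤ ∫ _x, K ∂T.M (soft cd.S Λ) g := by
          refine integral_mono (F5_int _ hvc).neg (integrable_const K) fun x => ?_
          show -(v x) ≤ K
          linarith [hvK x]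
      _ = K * T.V := by
          rw [integral_const, smul_eq_mul, hm, mul_comm]
  have hneg : ∀ ν : Measure X, ∫ x, v x ∂ν ≤ 0 := fun ν =>
    integral_nonpos fun x => hv0 x
  have hc := cd.L1 Λ hΛ
  rw [integral_neg] at hc
  have hmain : ∫ x, -(soft cd.S Λ x) ∂T.M v v ≤ cd.c + 2 * K * T.V := by
    rw [integral_neg]
    have h1 := hbd v hv
    have h2 := hbd _ h0
    have h3 := hneg (T.M (fun _ => 0) v)
    have h4 := hneg (T.M (fun _ => 0) (fun _ => 0))
    linarith
  -- pointwise bounds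
  have hexp : 0 < Real.exp (-2 * Λ) := Real.exp_pos _
  have hlog2 : Real.log 2 < 0.7 := by
    have := Real.log_two_lt_d9
    linarith
  have hup : ∀ x t : ℝ, 0 ≤ x → x ≤ Real.exp (-2 * t) → 1 ≤ t → t ≤ Λ →
      t / 2 ≤ -((1 / 2) * Real.log (x + Real.exp (-2 * Λ))) := by
    intro x t hx hxt ht1 htΛ
    have h1 : Real.exp (-2 * Λ) ≤ Real.exp (-2 * t) := Real.exp_le_exp.mpr (by linarith)
    have h2 : x + Real.exp (-2 * Λ) ≤ 2 * Real.exp (-2 * t) := by linarith
    have h3 : Real.log (x + Real.exp (-2 * Λ)) ≤ Real.log (2 * Real.exp (-2 * t)) :=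
      Real.log_le_log (by linarith) h2
    rw [Real.log_mul (by norm_num) (Real.exp_pos _).ne', Real.log_exp] at h3
    linarith
  have hnn : ∀ x, 0 ≤ -(soft cd.S Λ x) := by
    intro x
    have h := hup (cd.S x) 1 (cd.S_nonneg x) (by simpa using cd.S_le x) le_rfl hΛ
    unfold soft
    linarith
  have hsub : {x | cd.S x ≤ Real.exp (-2 * Λ)} ⊆ {x | Λ / 2 ≤ -(soft cd.S Λ x)} := by
    intro x hx
    exact hup (cd.S x) Λ (cd.S_nonneg x) hx hΛ le_rfl
  have hmk := mul_meas_ge_le_integral_of_nonneg (μ := T.M v v)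
    (f := fun x => -(soft cd.S Λ x)) (Eventually.of_forall hnn) (F5_int _ hsc).neg (Λ / 2)
  have hmono : (T.M v v).real {x | cd.S x ≤ Real.exp (-2 * Λ)} ≤
      (T.M v v).real {x | Λ / 2 ≤ -(soft cd.S Λ x)} := measureReal_mono hsub
  have hΛ0 : 0 < Λ := by linarith
  have hfin : Λ / 2 * (T.M v v).real {x | cd.S x ≤ Real.exp (-2 * Λ)} ≤ cd.c + 2 * K * T.V :=
    (mul_le_mul_of_nonneg_left hmono (by positivity)).trans (hmk.trans hmain)
  calc (T.M v v).real {x | cd.S x ≤ Real.exp (-2 * Λ)}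
      = 2 / Λ * (Λ / 2 * (T.M v v).real {x | cd.S x ≤ Real.exp (-2 * Λ)}) := by
        field_simp
    _ ≤ 2 / Λ * (cd.c + 2 * K * T.V) := mul_le_mul_of_nonneg_left hfin (by positivity)

end MAP
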